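import Mathlib

/-!
# Mal'cev's cocompactness theorem, abstract form

`RPow D` is a continuous real power map on a topological group `D`.  If a nilpotent group `G` maps
to a locally compact group `D` with real powers, and no proper closed subgroup of `D` closed under
powers contains the image of `G`, then the image of `G` is cocompact in `D`.
-/

set_option autoImplicit false

open Set Topology Filter
open scoped Pointwise

namespace Pool.Agent.Helper47.SOLV

/-- A continuous real power map on a topological group. -/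
structure RPow (D : Type*) [Group D] [TopologicalSpace D] where
  /-- the power `x ^ t` -/
  pw : D → ℝ → D
  cont : Continuous fun p : D × ℝ => pw p.1 p.2
  one : ∀ x, pw x 1 = x
  add : ∀ x s t, pw x (s + t) = pw x s * pw x t
  mul : ∀ x s t, pw (pw x s) t = pw x (s * t)
  conj : ∀ g x t, pw (g * x * g⁻¹) t = g * pw x t * g⁻¹

namespace RPow

variable {D : Type*} [Group D] [TopologicalSpace D] (P : RPow D)

theorem zero (x : D) : P.pw x 0 = 1 := by
  have h := P.add x 0 0
  rw [add_zero] at h
  exact left_eq_mul.mp h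

theorem one_pw (t : ℝ) : P.pw 1 t = 1 := by
  have h := P.mul 1 0 t
  rwa [P.zero, zero_mul, P.zero] at h

theorem nat (x : D) (n : ℕ) : P.pw x n = x ^ n := by
  induction n with
  | zero => rw [Nat.cast_zero, P.zero, pow_zero]
  | succ n ih => rw [Nat.cast_succ, P.add, ih, P.one, pow_succ]

theorem neg (x : D) (t : ℝ) : P.pw x (-t) = (P.pw x t)⁻¹ := by
  have h := P.add x (-t) t
  rw [neg_add_cancel, P.zero] at h
  exact eq_inv_of_mul_eq_one_left h.symm

theorem int (x : D) (n : ℤ) : P.pw x n = x ^ n := by
  obtain ⟨m, rfl | rfl⟩ := n.eq_nat_or_neg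
  · rw [Int.cast_natCast, P.nat, zpow_natCast]
  · rw [Int.cast_neg, Int.cast_natCast, P.neg, P.nat, zpow_neg, zpow_natCast]

theorem inv (x : D) (t : ℝ) : P.pw x⁻¹ t = (P.pw x t)⁻¹ := by
  have h := P.mul x (-1) t
  rw [P.neg, P.one] at h
  rw [h, ← P.neg]
  congr 1
  ring

theorem commute_right {x y : D} (h : Commute x y) (t : ℝ) : Commute x (P.pw y t) := by
  have h1 := P.conj x y t
  rw [h.eq, mul_inv_cancel_right] at h1
  exact (eq_mul_inv_iff_mul_eq.mp h1).symm

theorem commute {x y : D} (h : Commute x y) (s t : ℝ) : Commute (P.pw x s) (P.pw y t) :=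
  P.commute_right (P.commute_right h.symm s).symm t

theorem mem_center {x : D} (hx : x ∈ Subgroup.center D) (t : ℝ) :
    P.pw x t ∈ Subgroup.center D := by
  rw [Subgroup.mem_center_iff] at hx ⊢
  intro g
  exact P.commute_right (hx g) t

variable [IsTopologicalGroup D] [T2Space D]

/-- Powers of a product of commuting elements. -/
theorem mul_pw {x y : D} (h : Commute x y) (t : ℝ) :
    P.pw (x * y) t = P.pw x t * P.pw y t := by
  have key : ∀ q : ℚ, P.pw (x * y) q = P.pw x q * P.pw y q := by
    intro q
    set n := q.den with hn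
    have hn0 : (n : ℝ) ≠ 0 := by
      rw [hn]; exact_mod_cast q.den_nz
    set z := P.pw x ((n : ℝ)⁻¹) * P.pw y ((n : ℝ)⁻¹) with hz
    have hc := P.commute h ((n : ℝ)⁻¹) ((n : ℝ)⁻¹)
    have h1 : P.pw z n = x * y := by
      rw [P.nat, hz, hc.mul_pow, ← P.nat, ← P.nat, P.mul, P.mul, inv_mul_cancel₀ hn0, P.one,
        P.one]
    have h2 : (q : ℝ) = n * ((n : ℝ)⁻¹ * q) := by
      rw [mul_inv_cancel_left₀ hn0]
    have h3 : (n : ℝ) * q = q.num := by
      have := q.den_mul_eq_num
      rw [← hn] at this
      exact_mod_cast this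
    rw [← h1, P.mul, h3, P.int, hz, hc.mul_zpow, ← P.int, ← P.int, P.mul, P.mul]
    congr 2 <;>
    · rw [← h3, inv_mul_cancel_left₀ hn0]
  have hcl : IsClosed {t : ℝ | P.pw (x * y) t = P.pw x t * P.pw y t} := by
    apply isClosed_eq
    · exact P.cont.comp (by fun_prop : Continuous fun t : ℝ => (x * y, t))
    · exact (P.cont.comp (by fun_prop : Continuous fun t : ℝ => (x, t))).mul
        (P.cont.comp (by fun_prop : Continuous fun t : ℝ => (y, t)))
  have hd : Dense (Set.range ((↑) : ℚ → ℝ)) := Rat.denseRange_cast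
  have := hd.closure_eq
  have hsub : closure (Set.range ((↑) : ℚ → ℝ)) ⊆ {t : ℝ | P.pw (x * y) t = P.pw x t * P.pw y t} :=
    closure_minimal (by rintro _ ⟨q, rfl⟩; exact key q) hcl
  rw [this] at hsub
  exact hsub (mem_univ t)

/-- A subgroup closed under powers. -/
def Stable (H : Subgroup D) : Prop := ∀ x ∈ H, ∀ t : ℝ, P.pw x t ∈ H

end RPow

theorem isClosed_center47 {D : Type*} [Group D] [TopologicalSpace D] [IsTopologicalGroup D]
    [T2Space D] : IsClosed (Subgroup.center D : Set D) := by
  have : (Subgroup.center D : Set D) = ⋂ g : D, {z | g * z = z * g} := by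
    ext z
    simp only [SetLike.mem_coe, Subgroup.mem_center_iff, mem_iInter, mem_ofPred_eq]
  rw [this]
  exact isClosed_iInter fun g => isClosed_eq (by fun_prop) (by fun_prop)

open scoped IsMulCommutative

section center

variable {D : Type*} [Group D] [TopologicalSpace D] [IsTopologicalGroup D] [T2Space D]

/-- The center of `D`, written additively. -/
abbrev ZC (D : Type*) [Group D] : Type _ := Additive (Subgroup.center D)

/-- The center of a group with real powers is a real vector space. -/
@[reducible] noncomputable def ZC.module (P : RPow D) : Module ℝ (ZC D) where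
  smul t z := Additive.ofMul ⟨P.pw (z.toMul : D) t, P.mem_center z.toMul.2 t⟩
  one_smul z := by
    apply Additive.toMul.injective
    apply Subtype.ext
    exact P.one _
  mul_smul s t z := by
    apply Additive.toMul.injective
    apply Subtype.ext
    change P.pw (z.toMul : D) (s * t) = P.pw (P.pw (z.toMul : D) t) s
    rw [P.mul, mul_comm]
  smul_zero t := by
    apply Additive.toMul.injective
    apply Subtype.ext
    exact P.one_pw t
  smul_add t z w := by
    apply Additive.toMul.injective
    apply Subtype.ext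
    refine P.mul_pw ?_ t
    exact Subgroup.mem_center_iff.mp w.toMul.2 _
  add_smul s t z := by
    apply Additive.toMul.injective
    apply Subtype.ext
    exact P.add _ s t
  zero_smul z := by
    apply Additive.toMul.injective
    apply Subtype.ext
    exact P.zero _

theorem ZC.continuousSMul (P : RPow D) :
    letI := ZC.module P
    ContinuousSMul ℝ (ZC D) := by
  let _ := ZC.module P
  constructor
  apply Continuous.subtype_mk (f := fun p : ℝ × ZC D => P.pw (p.2.toMul : D) p.1)
  exact P.cont.comp ((continuous_subtype_val.comp continuous_snd).prodMk continuous_fst)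

/-- The real span of a central subgroup: a closed central subgroup, stable under powers, in which
the given subgroup is cocompact. -/
theorem exists_span [LocallyCompactSpace D] (P : RPow D) (Z₀ : Subgroup D)
    (h : Z₀ ≤ Subgroup.center D) :
    ∃ D' : Subgroup D, D' ≤ Subgroup.center D ∧ IsClosed (D' : Set D) ∧ P.Stable D' ∧ Z₀ ≤ D' ∧
      ∃ C : Set D, IsCompact C ∧ ∀ x ∈ D', ∃ z ∈ Z₀, ∃ c ∈ C, x = z * c := by
  classical
  let _ := ZC.module P
  have hT2 : T2Space (ZC D) := inferInstanceAs (T2Space (Subgroup.center D))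
  have hcs : ContinuousSMul ℝ (ZC D) := ZC.continuousSMul P
  have hcl : IsClosed (Subgroup.center D : Set D) := isClosed_center47
  have hlc : LocallyCompactSpace (Subgroup.center D) :=
    hcl.isClosedEmbedding_subtypeVal.locallyCompactSpace
  have hlc' : LocallyCompactSpace (ZC D) := hlc
  have hfd : FiniteDimensional ℝ (ZC D) := FiniteDimensional.of_locallyCompactSpace ℝ
  set S : Set (ZC D) := {z | (z.toMul : D) ∈ Z₀} with hS
  set L : Submodule ℝ (ZC D) := Submodule.span ℝ S with hL
  obtain ⟨b, hbS, hbL, hbi⟩ := exists_linearIndependent ℝ S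
  have hbf : Finite b := hbi.finite
  cases nonempty_fintype b
  let D' : Subgroup D :=
    { carrier := {x | ∃ z ∈ L, (z.toMul : D) = x}
      one_mem' := ⟨0, L.zero_mem, rfl⟩
      mul_mem' := by
        rintro _ _ ⟨z, hz, rfl⟩ ⟨w, hw, rfl⟩
        exact ⟨z + w, L.add_mem hz hw, rfl⟩
      inv_mem' := by
        rintro _ ⟨z, hz, rfl⟩
        exact ⟨-z, L.neg_mem hz, rfl⟩ }
  have hD' : ∀ x, x ∈ D' ↔ ∃ z ∈ L, (z.toMul : D) = x := fun x => Iff.rfl
  refine ⟨D', ?_, ?_, ?_, ?_, ?_⟩
  · rintro _ ⟨z, _, rfl⟩
    exact z.toMul.2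
  · have h1 : IsClosed (L : Set (ZC D)) := L.closed_of_finiteDimensional
    have h2 := hcl.isClosedEmbedding_subtypeVal.isClosedMap
      (Additive.toMul '' (L : Set (ZC D)))
      (by
        rw [Equiv.image_eq_preimage_symm]
        exact h1.preimage continuous_ofMul)
    convert h2 using 1
    ext x
    constructor
    · rintro ⟨z, hz, rfl⟩
      exact ⟨z.toMul, ⟨z, hz, rfl⟩, rfl⟩
    · rintro ⟨_, ⟨z, hz, rfl⟩, rfl⟩
      exact ⟨z, hz, rfl⟩
  · rintro _ ⟨z, hz, rfl⟩ t
    exact ⟨t • z, L.smul_mem t hz, rfl⟩
  · intro z hz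
    exact ⟨Additive.ofMul ⟨z, h hz⟩, Submodule.subset_span hz, rfl⟩
  · set F : (b → ℝ) → D := fun t => ((∑ i, t i • (i : ZC D)).toMul : D) with hF
    have hFc : Continuous F := by
      have : Continuous fun t : b → ℝ => ∑ i, t i • (i : ZC D) := by fun_prop
      exact continuous_subtype_val.comp (continuous_toMul.comp this)
    refine ⟨F '' (Set.univ.pi fun _ => Icc 0 1), (isCompact_univ_pi fun _ =>
      isCompact_Icc).image hFc, ?_⟩
    rintro _ ⟨z, hz, rfl⟩
    have hz' : z ∈ Submodule.span ℝ (Set.range ((↑) : b → ZC D)) := by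
      rw [Subtype.range_coe, hbL]
      exact hz
    obtain ⟨t, rfl⟩ := (Submodule.mem_span_range_iff_exists_fun ℝ).mp hz'
    refine ⟨((∑ i, (⌊t i⌋ : ℤ) • (i : ZC D)).toMul : D), ?_, F fun i => Int.fract (t i),
      ⟨_, fun i _ => ⟨Int.fract_nonneg _, (Int.fract_lt_one _).le⟩, rfl⟩, ?_⟩
    · let T : AddSubgroup (ZC D) :=
        { carrier := S
          zero_mem' := Z₀.one_mem
          add_mem' := fun {a b} ha hb => Z₀.mul_mem ha hb
          neg_mem' := fun {a} ha => Z₀.inv_mem ha }
      have : ∑ i, (⌊t i⌋ : ℤ) • (i : ZC D) ∈ T :=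
        T.sum_mem fun i _ => T.zsmul_mem (hbS i.2) _
      exact this
    · have : ∑ i, t i • (i : ZC D) = ∑ i, (⌊t i⌋ : ℤ) • (i : ZC D) +
          ∑ i, Int.fract (t i) • (i : ZC D) := by
        rw [← Finset.sum_add_distrib]
        refine Finset.sum_congr rfl fun i _ => ?_
        rw [← Int.cast_smul_eq_zsmul ℝ, ← add_smul, Int.floor_add_fract]
      rw [this]
      rfl

end center

/-- Compact sets lift along open surjections from locally compact spaces. -/
theorem lift_compact {X Y : Type*} [TopologicalSpace X] [TopologicalSpace Y]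
    [LocallyCompactSpace X] {f : X → Y} (hf : IsOpenMap f) (hs : Function.Surjective f)
    {K : Set Y} (hK : IsCompact K) : ∃ C : Set X, IsCompact C ∧ K ⊆ f '' C := by
  refine hK.induction_on (p := fun s => ∃ C : Set X, IsCompact C ∧ s ⊆ f '' C)
    ⟨∅, isCompact_empty, empty_subset _⟩ ?_ ?_ ?_
  · rintro s t hst ⟨C, hC, h⟩
    exact ⟨C, hC, hst.trans h⟩
  · rintro s t ⟨C, hC, h⟩ ⟨C', hC', h'⟩
    exact ⟨C ∪ C', hC.union hC', by
      rw [image_union]; exact union_subset_union h h'⟩
  · intro y _
    obtain ⟨x, rfl⟩ := hs y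
    obtain ⟨C, hC, hx⟩ := exists_compact_mem_nhds x
    exact ⟨f '' C, mem_nhdsWithin_of_mem_nhds (hf.image_mem_nhds hx), C, hC, le_rfl⟩

section quot

variable {D : Type*} [Group D] [TopologicalSpace D] [IsTopologicalGroup D] [T2Space D]

/-- The power map on the quotient by a closed central subgroup stable under powers. -/
noncomputable def RPow.quot (P : RPow D) (N : Subgroup D) [N.Normal]
    (hN : N ≤ Subgroup.center D) (hs : P.Stable N) : RPow (D ⧸ N) where
  pw q t := Quotient.liftOn' q (fun x => ((P.pw x t : D) : D ⧸ N)) (by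
    intro a b hab
    rw [QuotientGroup.leftRel_apply] at hab
    have h1 : b = a * (a⁻¹ * b) := by group
    have hc : Commute a (a⁻¹ * b) := Subgroup.mem_center_iff.mp (hN hab) a
    have h2 : P.pw b t = P.pw a t * P.pw (a⁻¹ * b) t := by
      rw [← P.mul_pw hc, ← h1]
    change ((P.pw a t : D) : D ⧸ N) = ((P.pw b t : D) : D ⧸ N)
    rw [h2, QuotientGroup.eq, inv_mul_cancel_left]
    exact hs _ hab t)
  cont := by
    have h1 : IsOpenQuotientMap (Prod.map (QuotientGroup.mk : D → D ⧸ N) (id : ℝ → ℝ)) :=
      QuotientGroup.isOpenQuotientMap_mk.prodMap IsOpenQuotientMap.id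
    exact h1.isQuotientMap.continuous_iff.mpr (QuotientGroup.continuous_mk.comp P.cont)
  one q := by
    induction q using QuotientGroup.induction_on with
    | H x => exact congrArg _ (P.one x)
  add q s t := by
    induction q using QuotientGroup.induction_on with
    | H x => exact congrArg _ (P.add x s t)
  mul q s t := by
    induction q using QuotientGroup.induction_on with
    | H x => exact congrArg _ (P.mul x s t)
  conj g q t := by
    induction q using QuotientGroup.induction_on with
    | H x =>
      induction g using QuotientGroup.induction_on with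
      | H g => exact congrArg _ (P.conj g x t)

theorem RPow.quot_mk (P : RPow D) (N : Subgroup D) [N.Normal]
    (hN : N ≤ Subgroup.center D) (hs : P.Stable N) (x : D) (t : ℝ) :
    (P.quot N hN hs).pw (x : D ⧸ N) t = ((P.pw x t : D) : D ⧸ N) := rfl

end quot

/-- **Mal'cev.**  A nilpotent group which maps to a locally compact group with real powers, with
image not contained in a proper closed subgroup stable under powers, has cocompact image. -/
theorem malcev.{u, v} (G : Type u) [Group G] [Group.IsNilpotent G] :
    ∀ (D : Type v) [Group D] [TopologicalSpace D] [IsTopologicalGroup D] [T2Space D]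
      [LocallyCompactSpace D] (P : RPow D) (f : G →* D)
      (_ : ∀ H : Subgroup D, IsClosed (H : Set D) → P.Stable H → (∀ g, f g ∈ H) → H = ⊤),
      ∃ C : Set D, IsCompact C ∧ ∀ x, ∃ g : G, ∃ c ∈ C, x = f g * c := by
  refine Group.nilpotent_center_quotient_ind (P := fun G _ _ => ∀ (D : Type v) [Group D]
      [TopologicalSpace D] [IsTopologicalGroup D] [T2Space D]
      [LocallyCompactSpace D] (P : RPow D) (f : G →* D)
      (_ : ∀ H : Subgroup D, IsClosed (H : Set D) → P.Stable H → (∀ g, f g ∈ H) → H = ⊤),
      ∃ C : Set D, IsCompact C ∧ ∀ x, ∃ g : G, ∃ c ∈ C, x = f g * c) G ?_ ?_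
  · intro G _ _ D _ _ _ _ _ P f hd
    have h1 : (⊥ : Subgroup D) = ⊤ := by
      apply hd
      · rw [Subgroup.coe_bot]
        exact isClosed_singleton
      · intro x hx t
        rw [Subgroup.mem_bot] at hx ⊢
        rw [hx, P.one_pw]
      · intro g
        rw [Subsingleton.elim g 1, map_one]
        exact Subgroup.one_mem _
    refine ⟨{1}, isCompact_singleton, fun x => ⟨1, 1, rfl, ?_⟩⟩
    have : x ∈ (⊥ : Subgroup D) := by rw [h1]; exact Subgroup.mem_top x
    rw [Subgroup.mem_bot] at this
    rw [this, map_one, mul_one]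
  · intro G _ _ ih D _ _ _ _ _ P f hd
    set Z₀ : Subgroup D := (Subgroup.center G).map f with hZ₀
    have hcen : Z₀ ≤ Subgroup.center D := by
      rintro _ ⟨z, hz, rfl⟩
      have h1 : Subgroup.centralizer {f z} = ⊤ := by
        apply hd
        · have : (Subgroup.centralizer {f z} : Set D) = {x | f z * x = x * f z} := by
            ext x
            simp [Subgroup.mem_centralizer_iff]
          rw [this]
          exact isClosed_eq (by fun_prop) (by fun_prop)
        · intro x hx t
          rw [Subgroup.mem_centralizer_iff] at hx ⊢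
          rintro _ rfl
          exact P.commute_right (hx _ rfl) t
        · intro g
          rw [Subgroup.mem_centralizer_iff]
          rintro _ rfl
          rw [← map_mul, ← map_mul, ← Subgroup.mem_center_iff.mp hz g]
      rw [Subgroup.mem_center_iff]
      intro g
      have hg : g ∈ Subgroup.centralizer {f z} := by rw [h1]; exact Subgroup.mem_top g
      exact (Subgroup.mem_centralizer_iff.mp hg _ rfl).symm
    obtain ⟨D', hD'c, hD'cl, hD's, hZD', C₁, hC₁, hC₁'⟩ := exists_span P Z₀ hcen
    have hnorm : D'.Normal := ⟨fun x hx g => by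
      rw [Subgroup.mem_center_iff.mp (hD'c hx) g, mul_inv_cancel_right]
      exact hx⟩
    have hD'cl' : IsClosed (D' : Set D) := hD'cl
    have hle : Subgroup.center G ≤ D'.comap f := by
      intro z hz
      exact hZD' ⟨z, hz, rfl⟩
    set f' : G ⧸ Subgroup.center G →* D ⧸ D' := QuotientGroup.map _ _ f hle with hf'
    have hopen : IsOpenMap (QuotientGroup.mk : D → D ⧸ D') := QuotientGroup.isOpenMap_coe
    have hsurj : Function.Surjective (QuotientGroup.mk : D → D ⧸ D') :=
      QuotientGroup.mk_surjective
    have hT2 : T2Space (D ⧸ D') := inferInstance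
    obtain ⟨C, hC, hC'⟩ := ih (D ⧸ D') (P.quot D' hD'c hD's) f'
      (by
        intro H hH hHs hHf
        have h1 : H.comap (QuotientGroup.mk' D') = ⊤ := by
          apply hd
          · exact hH.preimage QuotientGroup.continuous_mk
          · intro x hx t
            exact hHs _ hx t
          · intro g
            exact hHf (g : G ⧸ Subgroup.center G)
        rw [eq_top_iff]
        intro q _
        induction q using QuotientGroup.induction_on with
        | H x =>
          have : x ∈ H.comap (QuotientGroup.mk' D') := by rw [h1]; exact Subgroup.mem_top x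
          exact this)
    obtain ⟨C₂, hC₂, hCC₂⟩ := lift_compact hopen hsurj hC
    refine ⟨C₂ * C₁, hC₂.mul hC₁, fun x => ?_⟩
    obtain ⟨q, c, hc, hx⟩ := hC' (x : D ⧸ D')
    induction q using QuotientGroup.induction_on with
    | H g =>
      obtain ⟨c₂, hc₂, rfl⟩ := hCC₂ hc
      have h1 : ((x : D) : D ⧸ D') = ((f g * c₂ : D) : D ⧸ D') := hx
      have h2 : (f g * c₂)⁻¹ * x ∈ D' := QuotientGroup.eq.mp h1.symm
      obtain ⟨_, ⟨z, hz, rfl⟩, c₁, hc₁, he⟩ := hC₁' _ h2
      refine ⟨g * z, c₂ * c₁, mul_mem_mul hc₂ hc₁, ?_⟩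
      have h3 : x = f g * c₂ * (f z * c₁) := by rw [← he]; group
      have h4 := Subgroup.mem_center_iff.mp (hcen ⟨z, hz, rfl⟩) c₂
      rw [h3, map_mul]
      calc f g * c₂ * (f z * c₁) = f g * (c₂ * f z) * c₁ := by group
        _ = f g * (f z * c₂) * c₁ := by rw [h4]
        _ = f g * f z * (c₂ * c₁) := by group

end Pool.Agent.Helper47.SOLV
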